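import Pool.Agent.MP_66cee2_co.XI.Lev
import Pool.Agent.MP_66cee2_co.XI.Clo
import Pool.Agent.MP_66cee2_co.XI.Den
import Pool.Agent.MP_66cee2_co.XI.Cls
import Pool.Agent.MP_66cee2_co.XI.ExhI
import Pool.Agent.MP_66cee2_co.XI.Rem
import Pool.Agent.MP_66cee2_co.XI.Null

/-
The four classes cover most of a given set of finite measure.
-/

namespace Pool.Agent.MP_66cee2_co.H17B

open MeasureTheory Set Filter Metric Topology Pool.Agent.MP_66cee2_co.X
  Pool.Agent.MP_66cee2_co.XI Pool.Agent.MP_66cee2_co.XI.LevA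
open scoped ENNReal

theorem cov {d n : ℕ} (p : ℕ) {P : E d → Matrix (Ix n) (Ix n) ℝ} {u : E d → Ix n → ℝ}
    (hd : 1 ≤ d) (hu : JetField P u) (S : Set (E d)) {m : ℝ≥0∞} (hc : m < volume S) :
    ∃ (w : E d) (D j : ℕ) (r r' : ℝ), ‖w‖ = 1 ∧ 1 ≤ j ∧ 0 < r ∧ 0 < r' ∧
      m < volume ({x | ∃ c, x ∈ Den (Den (Pc u D (4 * D + p + 1) j (Cl c j w)) r) r'} ∩ S) := by
  have hClo := sClo
  have hDen := sDen
  have hCls := sCls (sRem sNull) sDen
  have hExh := sExhI sNull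
  have : Nonempty (Fin d) := ⟨⟨0, hd⟩⟩
  let Good : E d → E d → Prop := fun x a => ∃ D₀ : ℕ, ∀ D, D₀ ≤ D → ∃ j₀ : ℕ, ∀ j, j₀ ≤ j →
    ∃ c, x ∈ Pc u D (4 * D + p + 1) j (Cl c j (‖a‖⁻¹ • a))
  have hm : MeasurableSet {z : E d × E d | Good z.1 z.2} := by
    rw [measurableSet_setOfPred]
    refine Measurable.exists fun D₀ => Measurable.forall fun D => Measurable.imp measurable_const
      (Measurable.exists fun j₀ => Measurable.forall fun j => Measurable.imp measurable_const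
        (Measurable.exists fun c => ?_))
    have hf : Measurable fun z : E d × E d => (z.1, ‖z.2‖⁻¹ • z.2) := by fun_prop
    exact measurableSet_setOfPred.1
      ((hClo d n u D (4 * D + p + 1) j c).measurableSet.preimage hf)
  have h1 : ∀ᵐ x : E d, ∀ᵐ a : E d, Good x a := by
    filter_upwards [hCls d n P u hu] with x hx
    obtain ⟨Q, hQ, hQ'⟩ := hx
    filter_upwards [hExh d n u x Q hd hQ hQ'] with a ha
    obtain ⟨D₀, hD₀⟩ := ha
    exact ⟨D₀, fun D hD => hD₀ D hD _⟩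
  have h2 : ∀ᵐ a : E d, a ≠ 0 := compl_mem_ae_iff.2 (measure_singleton (0 : E d))
  obtain ⟨a, ha, ha0⟩ := (((Measure.ae_ae_comm (p := Good) hm).1 h1).and h2).exists
  have hw : ‖‖a‖⁻¹ • a‖ = 1 := norm_smul_inv_norm ha0
  simp only [Good] at ha
  generalize ‖a‖⁻¹ • a = w at ha hw
  have ac : ∀ {q : E d → Prop}, (∀ᵐ x : E d, q x) → ∀ᵐ x ∂(volume.restrict S), q x :=
    fun h => ae_restrict_of_ae h
  have hc' : m < (volume.restrict S) univ := by rwa [Measure.restrict_apply_univ]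
  have cl : ∀ (D j : ℕ) (c : Fin 4), IsClosed (Pc u D (4 * D + p + 1) j (Cl c j w)) :=
    fun D j c => isClosed_pc hClo u D _ j c w
  have step : ∀ (Z : Fin 4 → Set (E d)), (∀ c, IsClosed (Z c)) →
      m < (volume.restrict S) {x | ∃ c, x ∈ Z c} →
      ∃ r : ℝ, 0 < r ∧ m < (volume.restrict S) {x | ∃ c, x ∈ Den (Z c) r} := by
    intro Z hZ h
    have h3 : ∀ᵐ x : E d, ∀ c : Fin 4, x ∈ Z c → ∃ r > 0, x ∈ Den (Z c) r :=
      ae_all_iff.2 fun c => (hDen d _).2 (hZ c).measurableSet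
    have e3 : ∀ᶠ i : ℕ in atTop, m < (volume.restrict S) {x |
        ∃ c, x ∈ Den (Z c) (1 / ((i : ℝ) + 1))} := by
      refine exh _ ?_ h
      filter_upwards [ac h3] with θ hθ hB
      obtain ⟨c, hc⟩ := hB
      obtain ⟨r, hr, hr'⟩ := hθ c hc
      filter_upwards [tendsto_one_div_add_atTop_nhds_zero_nat.eventually (ge_mem_nhds hr)]
        with i hi
      exact ⟨c, den_anti hi hr'⟩
    obtain ⟨i, hi⟩ := e3.exists
    exact ⟨_, Nat.one_div_pos_of_nat, hi⟩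
  have e1 : ∀ᶠ D : ℕ in atTop, m < (volume.restrict S) {θ | ∀ᶠ j : ℕ in atTop,
      ∃ c, θ ∈ Pc u D (4 * D + p + 1) j (Cl c j w)} := by
    refine exh _ ?_ hc'
    filter_upwards [ac ha] with θ hθ _
    obtain ⟨D₀, hD₀⟩ := hθ
    exact eventually_atTop.2 ⟨D₀, fun D hD => eventually_atTop.2 (hD₀ D hD)⟩
  obtain ⟨D, hD⟩ := e1.exists
  have e2 : ∀ᶠ j : ℕ in atTop, m < (volume.restrict S) {θ |
      ∃ c, θ ∈ Pc u D (4 * D + p + 1) j (Cl c j w)} :=
    exh (volume.restrict S) (Eventually.of_forall fun θ hθ => hθ) hD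
  obtain ⟨j, hj, hj1⟩ := (e2.and (eventually_ge_atTop 1)).exists
  obtain ⟨r, r0, hr⟩ := step _ (cl D j) hj
  have cl2 : ∀ c, IsClosed (Den (Pc u D (4 * D + p + 1) j (Cl c j w)) r) := fun c =>
    (hDen d _).1 (cl D j c) r
  obtain ⟨r', r0', hr'⟩ := step _ cl2 hr
  refine ⟨w, D, j, r, r', hw, hj1, r0, r0', ?_⟩
  have ms : MeasurableSet
      {x | ∃ c, x ∈ Den (Den (Pc u D (4 * D + p + 1) j (Cl c j w)) r) r'} := by
    rw [setOf_exists]
    exact MeasurableSet.iUnion fun c => ((hDen d _).1 (cl2 c) r').measurableSet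
  rwa [Measure.restrict_apply ms] at hr'

end Pool.Agent.MP_66cee2_co.H17B
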