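import Pool.Agent.MP_66cee2_co.XI.Kit
import Pool.Agent.MP_66cee2_co.X.SpecJ

/-
Density points of a set with almost no unit pair have no pair at distance close to one.
-/

namespace Pool.Agent.MP_66cee2_co.H17B

open MeasureTheory Set Filter Metric Topology Pool.Agent.MP_66cee2_co.X
  Pool.Agent.MP_66cee2_co.XI
open scoped ENNReal

theorem vol_half {d : ℕ} {r : ℝ} (hr : 0 < r) :
    volume (ball (0 : E d) r) = 2 ^ d * volume (ball (0 : E d) (r / 2)) := by
  have h := Measure.addHaar_ball_mul_of_pos (volume : Measure (E d)) (0 : E d)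
    (r := 2) (by norm_num) (r / 2)
  rw [show 2 * (r / 2) = r by ring] at h
  rw [h, finrank_euclideanSpace_fin, ENNReal.ofReal_pow (by norm_num)]
  simp

theorem gap {d : ℕ} {A : Set (E d)} (h : AllPair fun x y => ¬ (x ∈ A ∧ y ∈ A)) {r : ℝ}
    (hr : 0 < r) {x y : E d} (hx : x ∈ Den A r) (hy : y ∈ Den A r) (hne : x ≠ y) :
    r / 2 ≤ |‖x - y‖ - 1| := by
  by_contra hlt
  push Not at hlt
  have n0 : 0 < ‖y - x‖ := norm_pos_iff.2 (sub_ne_zero.2 hne.symm)
  set w : E d := ‖y - x‖⁻¹ • (y - x) with hw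
  have w1 : ‖w‖ = 1 := norm_smul_inv_norm (sub_ne_zero.2 hne.symm)
  have hd : ‖x + w - y‖ < r / 2 := by
    have e : x + w - y = (‖y - x‖⁻¹ - 1) • (y - x) := by
      rw [hw, sub_smul, one_smul]; abel
    rw [e, norm_smul, Real.norm_eq_abs]
    have e2 : |‖y - x‖⁻¹ - 1| * ‖y - x‖ = |‖x - y‖ - 1| := by
      rw [norm_sub_rev x y, abs_sub_comm ‖y - x‖ 1]
      conv_lhs => rw [← abs_of_pos n0, abs_of_pos n0]
      rw [← abs_of_pos n0, ← abs_mul, abs_of_pos n0]
      congr 1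
      field_simp
    rwa [e2]
  have t1 := hx.2 r hr le_rfl
  have t2 := hy.2 r hr le_rfl
  simp only [Thin] at t1 t2
  have sub : volume (ball x (r / 2)) ≤
      volume ((Aᶜ ∩ ball x r) ∪ (fun z => z + w) ⁻¹' (Aᶜ ∩ ball y r)) := by
    refine measure_mono_ae ?_
    filter_upwards [h w w1] with z hz hb
    have hb' : ‖z - x‖ < r / 2 := mem_ball_iff_norm.1 hb
    by_cases hA : z ∈ A
    · refine Or.inr ⟨fun hB => hz ⟨hA, hB⟩, ?_⟩
      rw [mem_ball, dist_eq_norm]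
      calc ‖z + w - y‖ = ‖(z - x) + (x + w - y)‖ := by congr 1; abel
        _ ≤ ‖z - x‖ + ‖x + w - y‖ := norm_add_le _ _
        _ < r := by linarith
    · refine Or.inl ⟨hA, ?_⟩
      rw [mem_ball, dist_eq_norm]; linarith
  have s2 := sub.trans ((measure_union_le _ _).trans (add_le_add t1
    ((measure_preimage_add_right volume w _).le.trans t2)))
  rw [Measure.addHaar_ball_center, vol_half hr] at s2
  set v := volume (ball (0 : E d) (r / 2)) with hv
  have v0 : v ≠ 0 := (measure_ball_pos volume _ (by linarith)).ne'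
  have v1 : v ≠ ∞ := measure_ball_lt_top.ne
  have k : (16 * 4 ^ d : ℝ≥0∞)⁻¹ * 2 ^ d ≤ 16⁻¹ := by
    rw [ENNReal.mul_inv (by simp) (by simp), mul_assoc]
    refine mul_le_of_le_one_right' ?_
    have : (2 : ℝ≥0∞) ^ d ≤ 4 ^ d := by gcongr; norm_num
    calc ((4 : ℝ≥0∞) ^ d)⁻¹ * 2 ^ d ≤ (4 ^ d)⁻¹ * 4 ^ d := by gcongr
      _ = 1 := ENNReal.inv_mul_cancel (by simp) (by simp)
  have s3 : v ≤ (16⁻¹ + 16⁻¹) * v := by
    rw [add_mul]
    refine s2.trans (add_le_add ?_ ?_) <;> rw [← mul_assoc] <;> gcongr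
  have s4 : ((16⁻¹ + 16⁻¹ : ℝ≥0∞)) < 1 := by
    rw [← two_mul, ← ENNReal.toReal_lt_toReal (by simp [ENNReal.mul_eq_top]) (by simp)]
    simp; norm_num
  have s5 : (16⁻¹ + 16⁻¹) * v < 1 * v := by
    exact (ENNReal.mul_lt_mul_iff_left v0 v1).2 s4
  rw [one_mul] at s5
  exact absurd s3 (not_le.2 s5)

end Pool.Agent.MP_66cee2_co.H17B
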